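import Pool.Agent.W602.RG.Stm

/-!
# Project RG: the ultrapower of an algebraically closed field (`S_GAC`)
-/

set_option autoImplicit false

open Polynomial

namespace Pool.Agent.W917.RG.GAC

open Pool.Agent.W602.RG

theorem mk_pow {k : Type} [Field k] (t : ℕ → k) (i : ℕ) :
    (Om.mk t) ^ i = Om.mk (fun n => t n ^ i) := by
  induction i with
  | zero =>
    simp only [pow_zero]
    exact Om.mk_one.symm
  | succ i ih =>
    rw [pow_succ, ih, Om.mk_mul]
    simp only [pow_succ]

theorem mk_sum {k : Type} [Field k] {ι : Type} (s : Finset ι) (f : ι → ℕ → k) :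
    ∑ i ∈ s, Om.mk (f i) = Om.mk (fun n => ∑ i ∈ s, f i n) := by
  classical
  induction s using Finset.induction_on with
  | empty =>
    simp only [Finset.sum_empty]
    exact Om.mk_zero.symm
  | insert a s ha ih =>
    rw [Finset.sum_insert ha, ih, Om.mk_add]
    simp only [Finset.sum_insert ha]

theorem main : S_GAC := by
  intro k _ _
  refine IsAlgClosed.of_exists_root _ fun p hp hi => ?_
  set d := p.natDegree with hd
  have hd0 : 0 < d := hi.natDegree_pos
  choose u hu using fun i : ℕ => Om.mk_surj (p.coeff i)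
  have hroot : ∀ n : ℕ, ∃ t : k, t ^ d + ∑ i : Fin d, u i n * t ^ (i : ℕ) = 0 := by
    intro n
    have h1 : degree (∑ i : Fin d, C (u i n) * X ^ (i : ℕ)) < d :=
      degree_sum_fin_lt fun i : Fin d => u i n
    have h2 : degree (X ^ d + ∑ i : Fin d, C (u i n) * X ^ (i : ℕ)) = d := by
      rw [degree_add_eq_left_of_degree_lt (by rw [degree_X_pow]; exact h1), degree_X_pow]
    obtain ⟨t, ht⟩ := IsAlgClosed.exists_root (X ^ d + ∑ i : Fin d, C (u i n) * X ^ (i : ℕ))
      (by rw [h2]; exact_mod_cast hd0.ne')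
    refine ⟨t, ?_⟩
    rw [IsRoot.def, eval_add, eval_pow, eval_X, eval_finsetSum] at ht
    simpa using ht
  choose t ht using hroot
  refine ⟨Om.mk t, ?_⟩
  rw [eval_eq_sum_range, ← hd, Finset.sum_range_succ]
  have h3 : p.coeff d = 1 := hp
  rw [h3, one_mul, mk_pow, Finset.sum_range]
  have h4 : ∀ i : Fin d, p.coeff (i : ℕ) * (Om.mk t) ^ (i : ℕ) =
      Om.mk (fun n => u i n * t n ^ (i : ℕ)) := by
    intro i
    rw [← hu, mk_pow, Om.mk_mul]
  rw [Finset.sum_congr rfl fun i _ => h4 i, mk_sum, Om.mk_add]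
  have h5 : (fun n => ∑ i : Fin d, u i n * t n ^ (i : ℕ) + t n ^ d) = fun _ => (0 : k) := by
    funext n
    rw [add_comm]
    exact ht n
  rw [h5]
  exact Om.mk_zero

end Pool.Agent.W917.RG.GAC
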